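import Pool.Agent.Helper96.EL.Goals

/-!
# EL-GRW: quadratic growth of a function with an upper parallelogram inequality
-/

open Pool.Agent.Helper96.EL

namespace Pool.Agent.Helper66.EL

universe u

/-- one point, positive multiples -/
theorem one_nat {G : Type u} [AddCommGroup G] (f : G → ℝ) (C : ℝ) (hC : 0 ≤ C) (h0 : ∀ g, 0 ≤ f g)
    (hadd : ∀ g h, f (g + h) ≤ 2 * f g + 2 * f h + C) (g : G) :
    ∀ m : ℕ, 1 ≤ m → f (m • g) ≤ (2 * f g + C) * (m : ℝ) ^ 2 - (f g + C) := by
  intro m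
  induction m using Nat.strong_induction_on with
  | _ m ih =>
    intro hm
    have hg := h0 g
    rcases Nat.even_or_odd' m with ⟨n, rfl | rfl⟩
    · have hn : 1 ≤ n := by omega
      have h1 := ih n (by omega) hn
      have h2 := hadd (n • g) (n • g)
      rw [← add_nsmul, ← two_mul] at h2
      push_cast
      nlinarith
    · rcases Nat.eq_zero_or_pos n with rfl | hn
      · simp
        linarith
      · have h1 := ih n (by omega) hn
        have h3 := ih (n + 1) (by omega) (by omega)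
        have h2 := hadd ((n + 1) • g) (n • g)
        rw [← add_nsmul] at h2
        have e : n + 1 + n = 2 * n + 1 := by ring
        rw [e] at h2
        push_cast at h3 ⊢
        nlinarith

/-- one point, all integer multiples -/
theorem one_int {G : Type u} [AddCommGroup G] (f : G → ℝ) (C : ℝ) (hC : 0 ≤ C) (h0 : ∀ g, 0 ≤ f g)
    (hneg : ∀ g, f (-g) = f g)
    (hadd : ∀ g h, f (g + h) ≤ 2 * f g + 2 * f h + C) (g : G) :
    ∃ A : ℝ, 0 ≤ A ∧ ∀ (n : ℤ) (M : ℕ), |n| ≤ M → f (n • g) ≤ A * (1 + (M : ℝ) ^ 2) := by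
  have hg := h0 g
  have hz := h0 0
  refine ⟨2 * f g + C + f 0, by positivity, ?_⟩
  have key : ∀ m : ℕ, ∀ M : ℕ, m ≤ M → f (m • g) ≤ (2 * f g + C + f 0) * (1 + (M : ℝ) ^ 2) := by
    intro m M hmM
    have hMM : (0 : ℝ) ≤ (M : ℝ) ^ 2 := by positivity
    rcases Nat.eq_zero_or_pos m with rfl | hm
    · rw [zero_nsmul]
      nlinarith [mul_nonneg hg hMM, mul_nonneg hC hMM, mul_nonneg hz hMM]
    · have h1 := one_nat f C hC h0 hadd g m hm
      have h2 : (m : ℝ) ^ 2 ≤ (M : ℝ) ^ 2 := by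
        have : (m : ℝ) ≤ (M : ℝ) := by exact_mod_cast hmM
        have h0m : (0 : ℝ) ≤ (m : ℝ) := by positivity
        nlinarith
      have h3 : (2 * f g + C) * (m : ℝ) ^ 2 ≤ (2 * f g + C) * (M : ℝ) ^ 2 :=
        mul_le_mul_of_nonneg_left h2 (by positivity)
      nlinarith [mul_nonneg hz hMM]
  intro n M hn
  obtain ⟨m, rfl | rfl⟩ := n.eq_nat_or_neg
  · rw [natCast_zsmul]
    apply key
    rw [Nat.abs_cast] at hn
    exact_mod_cast hn
  · rw [neg_zsmul, hneg, natCast_zsmul]
    apply key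
    rw [abs_neg, Nat.abs_cast] at hn
    exact_mod_cast hn

theorem grw : GRW.{u} := by
  intro G _ f C h0 hneg hadd ρ P
  have hadd' : ∀ g h, f (g + h) ≤ 2 * f g + 2 * f h + |C| := fun g h =>
    (hadd g h).trans (by linarith [le_abs_self C])
  have hC : 0 ≤ |C| := abs_nonneg C
  have key : ∀ s : Finset (Fin ρ), ∃ A : ℝ, 0 ≤ A ∧ ∀ (n : Fin ρ → ℤ) (M : ℕ), (∀ i, |n i| ≤ M) →
      f (∑ i ∈ s, n i • P i) ≤ A * (1 + (M : ℝ) ^ 2) := by
    classical
    intro s
    induction s using Finset.induction_on with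
    | empty =>
      refine ⟨f 0, h0 0, ?_⟩
      intro n M _
      rw [Finset.sum_empty]
      have := h0 0
      have hMM : (0 : ℝ) ≤ (M : ℝ) ^ 2 := by positivity
      nlinarith [mul_nonneg this hMM]
    | insert i s hi ih =>
      obtain ⟨A, hA, hAs⟩ := ih
      obtain ⟨B, hB, hBs⟩ := one_int f |C| hC h0 hneg hadd' (P i)
      refine ⟨2 * B + 2 * A + |C|, by positivity, ?_⟩
      intro n M hn
      rw [Finset.sum_insert hi]
      have h1 := hadd' (n i • P i) (∑ j ∈ s, n j • P j)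
      have h2 := hBs (n i) M (hn i)
      have h3 := hAs n M hn
      have hMM : (0 : ℝ) ≤ (M : ℝ) ^ 2 := by positivity
      nlinarith [mul_nonneg hC hMM]
  obtain ⟨A, hA, h⟩ := key Finset.univ
  exact ⟨A, hA, fun n M hn => h n M hn⟩

end Pool.Agent.Helper66.EL
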